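import Pool.Agent.H61.KU.TB

/-!
# Module CNT of ku_modules: counting 4-subsets and 5-subsets of 9 points
-/

set_option autoImplicit false

open Finset
open Pool.Agent.H61.KU

namespace Pool.Agent.H86.KU

/-- pairs (a 4-set, a point outside) against pairs (a 5-set, a point inside) -/
theorem pair_count (P F : Finset (Finset (Fin 9))) (hP : ∀ W, W ∈ P ↔ W.card = 4)
    (hF : ∀ G ∈ F, G.card = 5) :
    ∑ W ∈ P, ((univ : Finset (Fin 9)).filter (fun a => a ∉ W ∧ insert a W ∈ F)).card =
      5 * F.card := by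
  classical
  have h2 : (P.sigma
        (fun W => (univ : Finset (Fin 9)).filter (fun a => a ∉ W ∧ insert a W ∈ F))).card =
      (F.sigma (fun G => G)).card := by
    refine Finset.card_nbij' (fun p => ⟨insert p.2 p.1, p.2⟩) (fun p => ⟨p.1.erase p.2, p.2⟩)
      ?_ ?_ ?_ ?_
    · rintro ⟨W, a⟩ h
      simp only [mem_coe, mem_sigma, mem_filter, mem_univ, true_and] at h ⊢
      exact ⟨h.2.2, mem_insert_self _ _⟩
    · rintro ⟨G, a⟩ h
      simp only [mem_coe, mem_sigma, mem_filter, mem_univ, true_and] at h ⊢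
      refine ⟨?_, notMem_erase _ _, ?_⟩
      · rw [hP, card_erase_of_mem h.2, hF G h.1]
      · rw [insert_erase h.2]; exact h.1
    · rintro ⟨W, a⟩ h
      simp only [mem_coe, mem_sigma, mem_filter, mem_univ, true_and] at h
      simp only [erase_insert h.2.1]
    · rintro ⟨G, a⟩ h
      simp only [mem_coe, mem_sigma] at h
      simp only [insert_erase h.2]
  rw [← Finset.card_sigma, h2, Finset.card_sigma, Finset.sum_congr rfl hF, sum_const,
    smul_eq_mul, mul_comm]

/-- the same for a family of 4-sets -/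
theorem pair_count' (P E : Finset (Finset (Fin 9))) (hP : ∀ W, W ∈ P ↔ W.card = 5)
    (hE : ∀ T ∈ E, T.card = 4) :
    ∑ G ∈ P, ((univ : Finset (Fin 9)).filter (fun a => a ∈ G ∧ G.erase a ∈ E)).card =
      5 * E.card := by
  classical
  have h2 : (P.sigma
        (fun G => (univ : Finset (Fin 9)).filter (fun a => a ∈ G ∧ G.erase a ∈ E))).card =
      (E.sigma (fun T => Tᶜ)).card := by
    refine Finset.card_nbij' (fun p => ⟨p.1.erase p.2, p.2⟩) (fun p => ⟨insert p.2 p.1, p.2⟩)
      ?_ ?_ ?_ ?_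
    · rintro ⟨G, a⟩ h
      simp only [mem_coe, mem_sigma, mem_filter, mem_univ, true_and, mem_compl] at h ⊢
      exact ⟨h.2.2, notMem_erase _ _⟩
    · rintro ⟨T, a⟩ h
      simp only [mem_coe, mem_sigma, mem_filter, mem_univ, true_and, mem_compl] at h ⊢
      refine ⟨?_, mem_insert_self _ _, ?_⟩
      · rw [hP, card_insert_of_notMem h.2, hE T h.1]
      · rw [erase_insert h.2]; exact h.1
    · rintro ⟨G, a⟩ h
      simp only [mem_coe, mem_sigma, mem_filter, mem_univ, true_and] at h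
      simp only [insert_erase h.2.1]
    · rintro ⟨T, a⟩ h
      simp only [mem_coe, mem_sigma, mem_compl] at h
      simp only [erase_insert h.2]
  have h3 : ∀ T ∈ E, (Tᶜ).card = 5 := by
    intro T hT
    rw [card_compl, hE T hT, Fintype.card_fin]
  rw [← Finset.card_sigma, h2, Finset.card_sigma, Finset.sum_congr rfl h3, sum_const,
    smul_eq_mul, mul_comm]

theorem exists_P (n c : ℕ) (hc : Nat.choose 9 n = c) : ∃ P : Finset (Finset (Fin 9)),
    P.card = c ∧ ∀ W, W ∈ P ↔ W.card = n := by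
  refine ⟨powersetCard n univ, ?_, ?_⟩
  · rw [card_powersetCard, card_univ, Fintype.card_fin, hc]
  · intro W
    rw [mem_powersetCard]
    exact ⟨fun h => h.2, fun h => ⟨subset_univ _, h⟩⟩

theorem pf_cnt : T_CNT := by
  classical
  intro E _ h4 hint hnb hthree
  obtain ⟨P4, c4, m4⟩ := exists_P 4 126 rfl
  obtain ⟨P5, c5, m5⟩ := exists_P 5 126 rfl
  set F : Finset (Finset (Fin 9)) := P5.filter (fun G => ∀ T ∈ E, ¬ T ⊆ G) with hFdef
  have mF : ∀ G : Finset (Fin 9), G ∈ F ↔ G.card = 5 ∧ ∀ T ∈ E, ¬ T ⊆ G := by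
    intro G
    rw [hFdef, mem_filter, m5]
  have hFc : ∀ G ∈ F, G.card = 5 := fun G hG => ((mF G).mp hG).1
  have hEP : E ⊆ P4 := fun T hT => (m4 T).mpr (h4 T hT)
  have hFP : F ⊆ P5 := filter_subset _ _
  -- (i)
  have himg : E.image compl ⊆ F := by
    intro G hG
    obtain ⟨T, hT, rfl⟩ := mem_image.mp hG
    rw [mF]
    refine ⟨?_, ?_⟩
    · rw [card_compl, h4 T hT, Fintype.card_fin]
    · intro T' hT' hsub
      apply hint T' hT' T hT
      rw [← subset_compl_iff_disjoint_right]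
      exact hsub
  have hci : (E.image compl).card = E.card :=
    card_image_of_injective _ compl_injective
  have i1 : E.card ≤ F.card := by
    rw [← hci]
    exact card_le_card himg
  -- the degrees
  let D : Finset (Fin 9) → Finset (Fin 9) :=
    fun W => univ.filter (fun a => a ∉ W ∧ insert a W ∈ F)
  have mD : ∀ W : Finset (Fin 9), W.card = 4 → ∀ a, a ∈ D W ↔
      a ∉ W ∧ ∀ T ∈ E, ¬ T ⊆ insert a W := by
    intro W hW a
    simp only [D, mem_filter, mem_univ, true_and, mF]
    constructor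
    · rintro ⟨h1, _, h2⟩
      exact ⟨h1, h2⟩
    · rintro ⟨h1, h2⟩
      refine ⟨h1, ?_, h2⟩
      rw [card_insert_of_notMem h1, hW]
  have hD0 : ∀ W ∈ E, (D W).card = 0 := by
    intro W hW
    rw [card_eq_zero, eq_empty_iff_forall_notMem]
    intro a ha
    exact ((mD W (h4 W hW) a).mp ha).2 W hW (subset_insert _ _)
  have hD2 : ∀ W ∈ P4 \ E, (D W).card ≤ 2 := by
    intro W hW
    have hW4 : W.card = 4 := (m4 W).mp (mem_sdiff.mp hW).1
    by_contra hlt
    obtain ⟨a, b, c, ha, hb, hc, hab, hac, hbc⟩ := two_lt_card_iff.mp (not_le.mp hlt)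
    obtain ⟨ha1, ha2⟩ := (mD W hW4 a).mp ha
    obtain ⟨hb1, hb2⟩ := (mD W hW4 b).mp hb
    obtain ⟨hc1, hc2⟩ := (mD W hW4 c).mp hc
    exact hthree W a b c hW4 ha1 hb1 hc1 hab hbc hac ha2 hb2 hc2
  have e2 : ∑ W ∈ P4, (D W).card = 5 * F.card := pair_count P4 F m4 hFc
  have e2' : ∑ W ∈ P4 \ E, (D W).card = 5 * F.card := by
    have h := Finset.sum_sdiff (f := fun W => (D W).card) hEP
    rw [Finset.sum_eq_zero hD0, add_zero] at h
    rw [h, e2]
  have c4' : (P4 \ E).card = 126 - E.card := by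
    rw [card_sdiff_of_subset hEP, c4]
  have hEle : E.card ≤ 126 := by rw [← c4]; exact card_le_card hEP
  have hFle : F.card ≤ 126 := by rw [← c5]; exact card_le_card hFP
  have i2 : 5 * F.card ≤ 2 * (126 - E.card) := by
    rw [← e2', ← c4']
    calc ∑ W ∈ P4 \ E, (D W).card ≤ ∑ W ∈ P4 \ E, 2 := sum_le_sum hD2
      _ = 2 * (P4 \ E).card := by rw [sum_const, smul_eq_mul, mul_comm]
  -- (iii)
  have e3 : ∑ G ∈ P5, ((univ : Finset (Fin 9)).filter (fun a => a ∈ G ∧ G.erase a ∈ E)).card =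
      5 * E.card := pair_count' P5 E m5 h4
  have h3 : ∀ G ∈ P5 \ F,
      2 ≤ ((univ : Finset (Fin 9)).filter (fun a => a ∈ G ∧ G.erase a ∈ E)).card := by
    intro G hG
    obtain ⟨hG5, hGF⟩ := mem_sdiff.mp hG
    rw [m5] at hG5
    rw [mF] at hGF
    have : ∃ T ∈ E, T ⊆ G := by
      by_contra hno
      push Not at hno
      exact hGF ⟨hG5, hno⟩
    obtain ⟨T, hT, hTG⟩ := this
    obtain ⟨x, hx⟩ : ∃ x, G \ T = {x} := by
      rw [← card_eq_one, card_sdiff_of_subset hTG, hG5, h4 T hT]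
    have hxG : x ∈ G ∧ x ∉ T := by
      have : x ∈ G \ T := by rw [hx]; exact mem_singleton_self _
      exact mem_sdiff.mp this
    have hins : insert x T = G := by
      apply eq_of_subset_of_card_le (insert_subset hxG.1 hTG)
      rw [card_insert_of_notMem hxG.2, h4 T hT, hG5]
    obtain ⟨y, hy, hyE⟩ := hnb T hT x hxG.2
    have hxy : x ≠ y := by
      rintro rfl
      exact hxG.2 hy
    rw [← Nat.lt_iff_add_one_le, one_lt_card]
    refine ⟨x, ?_, y, ?_, hxy⟩
    · simp only [mem_filter, mem_univ, true_and]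
      refine ⟨hxG.1, ?_⟩
      rw [← hins, erase_insert hxG.2]
      exact hT
    · simp only [mem_filter, mem_univ, true_and]
      refine ⟨hTG hy, ?_⟩
      rw [← hins, erase_insert_of_ne hxy]
      exact hyE
  have c5' : (P5 \ F).card = 126 - F.card := by
    rw [card_sdiff_of_subset hFP, c5]
  have i3 : 2 * (126 - F.card) ≤ 5 * E.card := by
    rw [← e3, ← c5']
    calc 2 * (P5 \ F).card = ∑ G ∈ P5 \ F, 2 := by rw [sum_const, smul_eq_mul, mul_comm]
      _ ≤ ∑ G ∈ P5 \ F,
          ((univ : Finset (Fin 9)).filter (fun a => a ∈ G ∧ G.erase a ∈ E)).card :=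
        sum_le_sum h3
      _ ≤ _ := sum_le_sum_of_subset sdiff_subset
  have hEF : E.card = 36 ∧ F.card = 36 := by omega
  have himg' : E.image compl = F :=
    eq_of_subset_of_card_le himg (by rw [hci, hEF.1, hEF.2])
  constructor
  · intro W hW
    constructor
    · intro hWE T hT hsub
      apply hint T hT W hWE
      rw [← subset_compl_iff_disjoint_right]
      exact hsub
    · intro h
      have hWF : Wᶜ ∈ F := by
        rw [mF]
        refine ⟨?_, h⟩
        rw [card_compl, hW, Fintype.card_fin]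
      rw [← himg'] at hWF
      obtain ⟨T, hT, hTW⟩ := mem_image.mp hWF
      rw [← compl_injective hTW]
      exact hT
  · intro W hW hWE
    have hsum : ∑ W ∈ P4 \ E, (D W).card = ∑ W ∈ P4 \ E, 2 := by
      rw [e2', sum_const, smul_eq_mul, c4', hEF.1, hEF.2]
    have heq := (Finset.sum_eq_sum_iff_of_le hD2).mp hsum
    have h2 : (D W).card = 2 := heq W (mem_sdiff.mpr ⟨(m4 W).mpr hW, hWE⟩)
    obtain ⟨a, b, hab, hDab⟩ := card_eq_two.mp h2
    have ha := (mD W hW a).mp (by rw [hDab]; simp)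
    have hb := (mD W hW b).mp (by rw [hDab]; simp)
    refine ⟨a, b, ha.1, hb.1, hab, ha.2, hb.2, ?_⟩
    intro c hc1 hc2
    have hc : c ∈ D W := (mD W hW c).mpr ⟨hc1, hc2⟩
    rw [hDab, mem_insert, mem_singleton] at hc
    exact hc

end Pool.Agent.H86.KU
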