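import Pool.Agent.H61.KU.TB

/-!
# Module CR0 of ku_modules: coordinates on the affine span of a face
-/

set_option autoImplicit false

open Topology Set
open Pool.Agent.H59 Pool.Agent.H64.LB Pool.Agent.H61.KU

namespace Pool.Agent.H86.KU

/-- the rank of the homogenisation is the dimension of the affine span plus one -/
theorem rk_hom (ι : Type) [Fintype ι] [DecidableEq ι] (v : ι → E8) (F : Finset ι) (i0 : ι)
    (hi0 : i0 ∈ F) :
    rk (hom v) F = Module.finrank ℝ (vectorSpan ℝ (v '' (F : Set ι))) + 1 := by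
  let D : Submodule ℝ E8 := vectorSpan ℝ (v '' (F : Set ι))
  have hD : D = Submodule.span ℝ ((fun x => x -ᵥ v i0) '' (v '' (F : Set ι))) :=
    vectorSpan_eq_span_vsub_set_right ℝ ⟨i0, hi0, rfl⟩
  have hsup : sp (hom v) F =
      D.map (LinearMap.inl ℝ E8 ℝ) ⊔ Submodule.span ℝ {hom v i0} := by
    apply le_antisymm
    · refine Submodule.span_le.mpr ?_
      rintro _ ⟨i, hi, rfl⟩
      rw [SetLike.mem_coe, Submodule.mem_sup]
      refine ⟨(v i - v i0, 0), ⟨v i - v i0, ?_, rfl⟩, hom v i0,
        Submodule.mem_span_singleton_self _, ?_⟩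
      · rw [hD]
        exact Submodule.subset_span ⟨v i, ⟨i, hi, rfl⟩, rfl⟩
      · ext1
        · simp [hom]
        · simp [hom]
    · refine sup_le ?_ ?_
      · rw [hD, Submodule.map_span]
        refine Submodule.span_le.mpr ?_
        rintro _ ⟨_, ⟨_, ⟨i, hi, rfl⟩, rfl⟩, rfl⟩
        have h1 : hom v i ∈ sp (hom v) F := Submodule.subset_span ⟨i, hi, rfl⟩
        have h2 : hom v i0 ∈ sp (hom v) F := Submodule.subset_span ⟨i0, hi0, rfl⟩
        have h3 : (LinearMap.inl ℝ E8 ℝ) (v i -ᵥ v i0) = hom v i - hom v i0 := by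
          ext1
          · simp [hom]
          · simp [hom]
        rw [SetLike.mem_coe, h3]
        exact Submodule.sub_mem _ h1 h2
      · refine Submodule.span_le.mpr ?_
        rintro _ rfl
        exact Submodule.subset_span ⟨i0, hi0, rfl⟩
  have hinf : D.map (LinearMap.inl ℝ E8 ℝ) ⊓ Submodule.span ℝ {hom v i0} = ⊥ := by
    rw [eq_bot_iff]
    rintro z ⟨⟨x, _, rfl⟩, hz⟩
    obtain ⟨c, hc⟩ := Submodule.mem_span_singleton.mp hz
    have h4 := congrArg Prod.snd hc
    simp only [hom, Prod.smul_snd, smul_eq_mul, mul_one, LinearMap.inl_apply] at h4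
    rw [← hc, h4, zero_smul]
    exact Submodule.zero_mem _
  have hfr := Submodule.finrank_sup_add_finrank_inf_eq
    (D.map (LinearMap.inl ℝ E8 ℝ)) (Submodule.span ℝ {hom v i0})
  have hne : hom v i0 ≠ 0 := by
    intro h
    have := congrArg Prod.snd h
    simp [hom] at this
  rw [hinf, finrank_bot, add_zero, ← hsup, finrank_span_singleton hne,
    ← (Submodule.equivMapOfInjective (LinearMap.inl ℝ E8 ℝ) LinearMap.inl_injective
      D).finrank_eq] at hfr
  exact hfr

theorem pf_cr0 : T_CR0 := by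
  intro ι _ _ v F n p hrk hp
  have hne : (v '' (F : Set ι)).Nonempty := by
    rw [← convexHull_nonempty_iff (𝕜 := ℝ)]
    exact ⟨p, hp⟩
  obtain ⟨_, i0, hi0, rfl⟩ := hne
  have hr := rk_hom ι v F i0 hi0
  rw [hrk] at hr
  let D : Submodule ℝ E8 := vectorSpan ℝ (v '' (F : Set ι))
  have hfin : Module.finrank ℝ (Fin n → ℝ) = Module.finrank ℝ D := by
    rw [Module.finrank_fin_fun]
    change n = Module.finrank ℝ (vectorSpan ℝ (v '' (F : Set ι)))
    omega
  let e : (Fin n → ℝ) ≃ₗ[ℝ] D := LinearEquiv.ofFinrankEq _ _ hfin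
  let L : (Fin n → ℝ) →ₗ[ℝ] E8 := D.subtype ∘ₗ e.toLinearMap
  have hL : Function.Injective L := D.injective_subtype.comp e.injective
  let j : (Fin n → ℝ) →ᵃ[ℝ] E8 := L.toAffineMap + AffineMap.const ℝ _ p
  have hj : ∀ y, j y = L y + p := fun y => rfl
  have hjinj : Function.Injective j := by
    intro y z h
    rw [hj, hj] at h
    exact hL (add_right_cancel h)
  have hpA : p ∈ affineSpan ℝ (v '' (F : Set ι)) := convexHull_subset_affineSpan _ hp
  have hLD : ∀ y, L y ∈ (affineSpan ℝ (v '' (F : Set ι))).direction := by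
    intro y
    rw [direction_affineSpan]
    exact (e y).2
  have hrange : ∀ x ∈ affineSpan ℝ (v '' (F : Set ι)), ∃ y, j y = x := by
    intro x hx
    have h1 : x -ᵥ p ∈ (affineSpan ℝ (v '' (F : Set ι))).direction :=
      AffineSubspace.vsub_mem_direction hx hpA
    rw [direction_affineSpan] at h1
    refine ⟨e.symm ⟨x -ᵥ p, h1⟩, ?_⟩
    rw [hj]
    change ((e (e.symm ⟨x -ᵥ p, h1⟩) : D) : E8) + p = x
    rw [e.apply_symm_apply]
    exact sub_add_cancel x p
  have hsub : cv v F ⊆ range j := by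
    intro x hx
    exact hrange x (convexHull_subset_affineSpan _ hx)
  have hemb : IsClosedEmbedding j := by
    have h1 : IsClosedEmbedding L :=
      LinearMap.isClosedEmbedding_of_injective (𝕜 := ℝ) (LinearMap.ker_eq_bot.mpr hL)
    have h2 : (j : (Fin n → ℝ) → E8) = (Homeomorph.addRight p) ∘ L := rfl
    rw [h2]
    exact (Homeomorph.addRight p).isClosedEmbedding.comp h1
  refine ⟨j, hjinj, ?_, hsub, ?_, ?_, ?_⟩
  · rw [hj, map_zero, zero_add]
  · refine hemb.isCompact_preimage ?_
    exact (F.finite_toSet.image v).isCompact_convexHull (𝕜 := ℝ)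
  · exact (convex_convexHull ℝ _).affine_preimage j
  · have hsub2 : convexHull ℝ (j ⁻¹' (v '' (F : Set ι))) ⊆ j ⁻¹' cv v F := by
      refine convexHull_min ?_ ((convex_convexHull ℝ _).affine_preimage j)
      intro y hy
      exact subset_convexHull ℝ _ hy
    refine Set.Nonempty.mono (interior_mono hsub2) ?_
    rw [interior_convexHull_nonempty_iff_affineSpan_eq_top]
    rw [eq_top_iff]
    intro y _
    have h1 : j y ∈ affineSpan ℝ (v '' (F : Set ι)) := by
      rw [hj]
      exact AffineSubspace.vadd_mem_of_mem_direction (hLD y) hpA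
    have himg : j '' (j ⁻¹' (v '' (F : Set ι))) = v '' (F : Set ι) := by
      rw [image_preimage_eq_iff]
      exact (subset_convexHull ℝ _).trans hsub
    rw [← himg, ← AffineSubspace.map_span] at h1
    obtain ⟨z, hz, hzy⟩ := h1
    rw [← hjinj hzy]
    exact hz

end Pool.Agent.H86.KU
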