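import Pool.Agent.H61.KU.TB

/-!
# Module D3 of ku_modules: at most two 4-simplices at a 3-simplex
-/

set_option autoImplicit false

open Topology Set
open Pool.Agent.H59 Pool.Agent.H64.LB Pool.Agent.H61.KU
open scoped unitInterval

namespace Pool.Agent.H86.KU

theorem cv_coords {ι : Type} [Fintype ι] [DecidableEq ι] (v : ι → E8) (G : Finset ι) (x : E8)
    (hx : x ∈ cv v G) :
    ∃ w : ι → ℝ, (∀ i, 0 ≤ w i) ∧ (∀ i, i ∉ G → w i = 0) ∧ ∑ i, w i = 1 ∧
      ∑ i, w i • v i = x := by
  have hconv : Convex ℝ {x : E8 | ∃ w : ι → ℝ, (∀ i, 0 ≤ w i) ∧ (∀ i, i ∉ G → w i = 0) ∧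
      ∑ i, w i = 1 ∧ ∑ i, w i • v i = x} := by
    rintro x ⟨w, h1, h2, h3, rfl⟩ y ⟨w', h1', h2', h3', rfl⟩ a b ha hb hab
    refine ⟨fun i => a * w i + b * w' i, ?_, ?_, ?_, ?_⟩
    · intro i
      have := h1 i
      have := h1' i
      positivity
    · intro i hi
      change a * w i + b * w' i = 0
      rw [h2 i hi, h2' i hi, mul_zero, mul_zero, add_zero]
    · rw [Finset.sum_add_distrib, ← Finset.mul_sum, ← Finset.mul_sum, h3, h3', mul_one, mul_one,
        hab]
    · rw [Finset.smul_sum, Finset.smul_sum, ← Finset.sum_add_distrib]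
      refine Finset.sum_congr rfl fun i _ => ?_
      rw [add_smul, mul_smul, mul_smul]
  refine convexHull_min ?_ hconv hx
  rintro _ ⟨i, hi, rfl⟩
  refine ⟨fun k => if k = i then 1 else 0, ?_, ?_, ?_, ?_⟩
  · intro k
    dsimp only
    split_ifs <;> norm_num
  · intro k hk
    have : k ≠ i := by
      rintro rfl
      exact hk hi
    simp [this]
  · simp
  · simp

theorem cv_of_coords {ι : Type} [Fintype ι] (v : ι → E8) (G : Finset ι)
    (w : ι → ℝ) (h0 : ∀ i, 0 ≤ w i) (h1 : ∀ i, i ∉ G → w i = 0) (h2 : ∑ i, w i = 1) :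
    ∑ i, w i • v i ∈ cv v G := by
  have h3 : ∑ i ∈ G, w i = 1 := by
    rw [← h2]
    exact Finset.sum_subset (Finset.subset_univ G) (fun i _ hi => h1 i hi)
  have h4 : ∑ i ∈ G, w i • v i = ∑ i, w i • v i :=
    Finset.sum_subset (Finset.subset_univ G) (fun i _ hi => by rw [h1 i hi, zero_smul])
  rw [← h4]
  refine (convex_convexHull ℝ _).sum_mem (fun i _ => h0 i) h3 (fun i hi => ?_)
  exact subset_convexHull ℝ _ ⟨i, hi, rfl⟩

/-- coordinates are unique -/
theorem coords_unique {ι : Type} [Fintype ι] (v : ι → E8) (hv : AffineIndependent ℝ v)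
    (w w' : ι → ℝ) (h1 : ∑ i, w i = 1) (h1' : ∑ i, w' i = 1)
    (h : ∑ i, w i • v i = ∑ i, w' i • v i) (i : ι) : w i = w' i := by
  have h2 := (affineIndependent_iff.mp hv) Finset.univ (fun i => w i - w' i)
    (by rw [Finset.sum_sub_distrib, h1, h1', sub_self])
    (by simp_rw [sub_smul]; rw [Finset.sum_sub_distrib, h, sub_self]) i (Finset.mem_univ i)
  exact sub_eq_zero.mp h2

theorem pf_d3 (h2 : T_LO2) (hP : T_PNT) : T_D3 := by
  intro f v W a b c hinj hv hW ha hb hc hab hbc hac hca hcb hcc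
  have : CompactSpace (PN 2) := (hP 2).1
  have hcl : IsClosedEmbedding f := f.continuous.isClosedEmbedding hinj
  -- the centroid
  let w : Fin 9 → ℝ := fun i => if i ∈ W then 1 / 4 else 0
  have w0 : ∀ i, 0 ≤ w i := by
    intro i
    simp only [w]
    split_ifs <;> norm_num
  have wpos : ∀ i ∈ W, 0 < w i := by
    intro i hi
    simp only [w, if_pos hi]
    norm_num
  have wz : ∀ i, i ∉ W → w i = 0 := by
    intro i hi
    simp only [w, if_neg hi]
  have w1 : ∑ i, w i = 1 := by
    simp only [w]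
    rw [Finset.sum_ite_mem, Finset.univ_inter, Finset.sum_const, hW]
    norm_num
  have hyc : ∑ i, w i • v i ∈ cv v (insert a W) := by
    refine cv_of_coords v _ w w0 (fun i hi => wz i fun h => hi (Finset.mem_insert_of_mem h)) w1
  obtain ⟨y, hy⟩ := hca hyc
  obtain ⟨O, hO, hyO, hOsub⟩ := h2 f v W a b w y hinj hv hW ha hb hab hca hcb wpos wz w1 hy
  -- the complement of `O` has a closed image which misses `f y`
  have hcO : IsClosed (f '' Oᶜ) := hcl.isClosedMap _ hO.isClosed_compl
  have hyn : f y ∈ (f '' Oᶜ)ᶜ := by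
    rintro ⟨z, hz, hzy⟩
    exact hz (by rw [hinj hzy]; exact hyO)
  let p : ℝ → E8 := fun s => (1 - s) • f y + s • v c
  have hpc : Continuous p := by fun_prop
  have hp0 : p 0 = f y := by simp [p]
  have hnb : p ⁻¹' (f '' Oᶜ)ᶜ ∈ 𝓝 (0 : ℝ) := by
    apply hpc.continuousAt.preimage_mem_nhds
    rw [hp0]
    exact hcO.isOpen_compl.mem_nhds hyn
  obtain ⟨ε, hε, hball⟩ := Metric.mem_nhds_iff.mp hnb
  let s : ℝ := min (ε / 2) 1
  have hs0 : 0 < s := lt_min (by linarith) one_pos
  have hs1 : s ≤ 1 := min_le_right _ _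
  have hsε : s < ε := lt_of_le_of_lt (min_le_left _ _) (by linarith)
  have hps : p s ∈ (f '' Oᶜ)ᶜ := by
    apply hball
    rw [Metric.mem_ball, Real.dist_eq, sub_zero, abs_of_pos hs0]
    exact hsε
  -- coordinates of `p s`
  let u : Fin 9 → ℝ := fun i => (1 - s) * w i + (if i = c then s else 0)
  have hu : ∑ i, u i • v i = p s := by
    simp only [u, p, add_smul, Finset.sum_add_distrib, mul_smul, ite_smul, zero_smul,
      Finset.sum_ite_eq', Finset.mem_univ, if_true]
    rw [← Finset.smul_sum, hy]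
  have hu1 : ∑ i, u i = 1 := by
    simp only [u, Finset.sum_add_distrib, Finset.sum_ite_eq', Finset.mem_univ, if_true]
    rw [← Finset.mul_sum, w1]
    ring
  have hu0 : ∀ i, 0 ≤ u i := by
    intro i
    have := w0 i
    have h3 : 0 ≤ 1 - s := by linarith
    simp only [u]
    split_ifs <;> positivity
  have hmem : p s ∈ cv v (insert c W) := by
    rw [← hu]
    refine cv_of_coords v _ u hu0 (fun i hi => ?_) hu1
    have hi1 : i ≠ c := fun h => hi (by rw [h]; exact Finset.mem_insert_self _ _)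
    have hi2 : i ∉ W := fun h => hi (Finset.mem_insert_of_mem h)
    simp only [u, wz i hi2, if_neg hi1]
    ring
  obtain ⟨z, hz⟩ := hcc hmem
  have hzO : z ∈ O := by
    by_contra hn
    exact hps ⟨z, hn, hz⟩
  have key : ∀ d, d ≠ c → ¬ (p s ∈ cv v (insert d W)) := by
    intro d hd hcon
    obtain ⟨w', _, h5, h6, h7⟩ := cv_coords v _ _ hcon
    have h8 := coords_unique v hv u w' hu1 h6 (by rw [hu, h7]) c
    rw [h5 c (by
      rw [Finset.mem_insert, not_or]
      exact ⟨hd.symm, hc⟩)] at h8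
    simp only [u, if_true, wz c hc] at h8
    linarith
  rcases hOsub z hzO with h | h
  · rw [hz] at h
    exact key a hac h
  · rw [hz] at h
    exact key b hbc h

end Pool.Agent.H86.KU
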