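import Pool.Agent.H61.KU.TT
import Pool.Agent.H64.LB.OM

/-!
# Module PD3 of ku_modules: `H_3` of the projective line bundle vanishes
-/

set_option autoImplicit false

open Topology Set
open Pool.Agent.H59 Pool.Agent.H64.LB Pool.Agent.H24.LB Pool.Agent.H61.KU
open scoped unitInterval ContinuousMap

namespace Pool.Agent.H86.KU

/-- the homology of the projective line -/
theorem PN1_one (hPL : T_PL1) (hS2 : T_S2H) (R : Type) [CommRing R] :
    Subsingleton (HH R 1 (PN 1)) := by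
  obtain ⟨_, e, _⟩ := hPL
  have h := (hS2 R).2.1
  exact (HH_map_homeo_bijective R 1 e).2.subsingleton

theorem PN1_three (hPL : T_PL1) (hS2 : T_S2H) (R : Type) [CommRing R] :
    Subsingleton (HH R 3 (PN 1)) := by
  obtain ⟨_, e, _⟩ := hPL
  have h := (hS2 R).2.2.1 0
  exact (HH_map_homeo_bijective R 3 e).2.subsingleton

/-- the projection `Sph 1 × PN 1 → PN 1` is injective on `H_2` -/
theorem snd_inj (hS : T_SUSP) (hPL : T_PL1) (hS2 : T_S2H) (R : Type) [CommRing R] :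
    Function.Injective (HH.map R 2 (ContinuousMap.snd : C(Sph 1 × PN 1, PN 1))) := by
  obtain ⟨Th⟩ := hS R
  have h0 : Subsingleton (HH R 1 (PN 1)) := PN1_one hPL hS2 R
  have h1 : Subsingleton (KK R 1 (1 + 1) (PN 1)) :=
    (Th.κ 1 1 (PN 1)).injective.subsingleton
  rw [← LinearMap.ker_eq_bot]
  exact Submodule.subsingleton_iff_eq_bot.mp h1

theorem pf_pd3 (hM : T_MV) (hHM : T_HM) (hS : T_SUSP) (hPL : T_PL1) (hS2 : T_S2H)
    (hC : T_CAP) (hT : T_CPT) (hV : T_TRV) : T_PD3 := by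
  intro δ
  obtain ⟨hDp, hDm, hcov, hcp, hcm, ⟨ε⟩⟩ := hT
  obtain ⟨⟨gp, hgp⟩, ⟨gm, hgm⟩⟩ := hC δ
  obtain ⟨ep, hep⟩ := hV δ Dp gp hgp
  obtain ⟨em, hem⟩ := hV δ Dm gm hgm
  obtain ⟨ei, hei⟩ := hV δ (Dp ∩ Dm) (gp.comp (incL Dp Dm)) (fun x => hgp (incL Dp Dm x))
  let Qp : Set (PD δ) := {p | p.1.1 ∈ Dp}
  let Qm : Set (PD δ) := {p | p.1.1 ∈ Dm}
  have hcont : Continuous (fun p : PD δ => p.1.1) :=
    continuous_fst.comp continuous_subtype_val
  have hQp : IsOpen Qp := hDp.preimage hcont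
  have hQm : IsOpen Qm := hDm.preimage hcont
  have hQ : Qp ∪ Qm = univ := by
    rw [eq_univ_iff_forall]
    intro p
    have h := hcov.ge (mem_univ p.1.1)
    exact h
  obtain ⟨MV⟩ := hM (ZMod 2)
  -- the pieces
  have h3 : Subsingleton (HH (ZMod 2) 3 (PN 1)) := PN1_three hPL hS2 (ZMod 2)
  have hp3 : Subsingleton (HH (ZMod 2) 3 ↥Qp) := by
    have h1 : Subsingleton (HH (ZMod 2) 3 (Dp × PN 1)) :=
      (HH_snd_bijective hHM (ZMod 2) 3 Dp (PN 1)).1.subsingleton
    exact (HH_map_homeo_bijective (ZMod 2) 3 (X := Dp × PN 1) (Y := ↥Qp) ep).2.subsingleton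
  have hm3 : Subsingleton (HH (ZMod 2) 3 ↥Qm) := by
    have h1 : Subsingleton (HH (ZMod 2) 3 (Dm × PN 1)) :=
      (HH_snd_bijective hHM (ZMod 2) 3 Dm (PN 1)).1.subsingleton
    exact (HH_map_homeo_bijective (ZMod 2) 3 (X := Dm × PN 1) (Y := ↥Qm) em).2.subsingleton
  -- the inclusion of the intersection is injective on `H_2`
  have hinj : Function.Injective (HH.map (ZMod 2) 2 (incL Qp Qm)) := by
    let ei2 : ↥(Dp ∩ Dm) × PN 1 ≃ₜ ↥(Qp ∩ Qm) := ei
    let ep2 : ↥Dp × PN 1 ≃ₜ ↥Qp := ep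
    let ei' : C(↥(Dp ∩ Dm) × PN 1, ↥(Qp ∩ Qm)) := (ei2 : C(_, _))
    let ep' : C(↥Dp × PN 1, ↥Qp) := (ep2 : C(_, _))
    have hei' : Function.Bijective (HH.map (ZMod 2) 2 ei') :=
      HH_map_homeo_bijective (ZMod 2) 2 ei2
    have hsq : (incL Qp Qm).comp ei' =
        ep'.comp ((incL Dp Dm).prodMap (ContinuousMap.id (PN 1))) := by
      apply ContinuousMap.ext
      rintro ⟨x, l⟩
      obtain ⟨u, hu, rfl⟩ := exists_P2 l
      have hu2 : u = ![u 0, u 1] := by
        funext i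
        fin_cases i <;> rfl
      have hab : ¬ (u 0 = 0 ∧ u 1 = 0) := by
        rintro ⟨h0, h1⟩
        apply hu
        rw [hu2, h0, h1]
        funext i
        fin_cases i <;> rfl
      have e1 := hei x (u 0) (u 1) hab
      have e2 := hep (incL Dp Dm x) (u 0) (u 1) hab
      rw [← hu2] at e1 e2
      apply Subtype.ext
      apply Subtype.ext
      exact e1.trans e2.symm
    -- compose with the projection
    have hcomp : Function.Injective (HH.map (ZMod 2) 2
        ((ContinuousMap.snd : C(↥Dp × PN 1, PN 1)).comp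
          ((incL Dp Dm).prodMap (ContinuousMap.id (PN 1))))) := by
      have h4 : ((ContinuousMap.snd : C(↥Dp × PN 1, PN 1)).comp
          ((incL Dp Dm).prodMap (ContinuousMap.id (PN 1)))).comp
            (ε.toFun.prodMap (ContinuousMap.id (PN 1))) =
            (ContinuousMap.snd : C(Sph 1 × PN 1, PN 1)) := rfl
      have h5 := HH_hequiv_prod_bijective hHM (ZMod 2) 2 (T := PN 1) ε
      have h6 := snd_inj hS hPL hS2 (ZMod 2)
      intro a b hab
      obtain ⟨a', rfl⟩ := h5.2 a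
      obtain ⟨b', rfl⟩ := h5.2 b
      rw [← HH.map_comp, ← HH.map_comp, h4] at hab
      rw [h6 hab]
    have hinj2 : Function.Injective (HH.map (ZMod 2) 2
        ((incL Dp Dm).prodMap (ContinuousMap.id (PN 1)))) := by
      intro a b hab
      apply hcomp
      rw [HH.map_comp, HH.map_comp, hab]
    intro a b hab
    obtain ⟨a', rfl⟩ := hei'.2 a
    obtain ⟨b', rfl⟩ := hei'.2 b
    rw [← HH.map_comp, ← HH.map_comp, hsq, HH.map_comp, HH.map_comp] at hab
    have h7 := (HH_map_homeo_bijective (ZMod 2) 2 ep2).1 hab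
    rw [hinj2 h7]
  refine subsingleton_of_forall_eq 0 fun z => ?_
  have h8 : MV.δ (PD δ) Qp Qm 2 z = 0 := by
    apply hinj
    rw [map_zero]
    exact ((MV.exact_inter (PD δ) Qp Qm hQp hQm hQ 2 _).mpr ⟨z, rfl⟩).1
  obtain ⟨a, b, hz⟩ := (MV.exact_union (PD δ) Qp Qm hQp hQm hQ 2 z).mpr h8
  rw [hz, Subsingleton.elim a 0, Subsingleton.elim b 0, map_zero, map_zero, add_zero]

end Pool.Agent.H86.KU
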